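import Pool.Agent.W70.HR.Stm

set_option autoImplicit false

open Finset

namespace Pool.Agent.W131.HR

open Pool.Agent.H361R2.PP Pool.Agent.W70.HR

open Classical in
/-- count in the class `b` for a set of shifts -/
noncomputable def cbT (X b : ℕ) (T : Finset ℕ) : ℕ :=
  ((SI X b).filter (fun n => ∀ t ∈ T, (n + t).Prime)).card

lemma cb_eq {X b l : ℕ} (y : Fin l → ℕ) : cb X b y = cbT X b (univ.image y) := by
  classical
  unfold cb cbT
  congr 1
  apply filter_congr
  intro n _
  simp

lemma Wpos (X : ℕ) : 0 < Wm X := by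
  unfold Wm
  exact primorial_pos _

open Classical in
/-- the elements of `A` for which `b + a` is prime to `W` -/
noncomputable def Vb (X : ℕ) (A : Finset ℕ) (b : ℕ) : Finset ℕ :=
  A.filter (fun a => (b + a).Coprime (Wm X))

lemma Vb_sub (Λ : ℝ) (X : ℕ) (A : Finset ℕ)
    (hA : ∀ a ∈ A, 1 ≤ a ∧ (a : ℝ) ≤ Λ * Real.log X) (b : ℕ) : Vb X A b ⊆ Bw Λ X b := by
  classical
  intro a ha
  unfold Vb at ha
  rw [mem_filter] at ha
  unfold Bw BB
  rw [mem_filter, mem_Icc]
  exact ⟨⟨(hA a ha.1).1, Nat.le_floor (hA a ha.1).2⟩, ha.2⟩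

lemma count_cop (W a : ℕ) : ((range W).filter (fun b => (b + a).Coprime W)).card = Nat.totient W := by
  rw [← Nat.filter_coprime_Ico_eq_totient W a]
  apply card_bij (fun b _ => a + b)
  · intro b hb
    rw [mem_filter, mem_range] at hb
    rw [mem_filter, mem_Ico]
    refine ⟨⟨by omega, by omega⟩, ?_⟩
    rw [add_comm a b]
    exact hb.2.symm
  · intro b _ b' _ h
    omega
  · intro x hx
    rw [mem_filter, mem_Ico] at hx
    refine ⟨x - a, ?_, by omega⟩
    rw [mem_filter, mem_range]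
    refine ⟨by omega, ?_⟩
    rw [Nat.sub_add_cancel hx.1.1]
    exact hx.2.symm

lemma sum_Vb (X : ℕ) (A : Finset ℕ) :
    ∑ b ∈ range (Wm X), (Vb X A b).card = A.card * Nat.totient (Wm X) := by
  classical
  have := sum_card_bipartiteAbove_eq_sum_card_bipartiteBelow
    (s := range (Wm X)) (t := A) (fun b a => (b + a).Coprime (Wm X))
  calc ∑ b ∈ range (Wm X), (Vb X A b).card
      = ∑ b ∈ range (Wm X), (A.bipartiteAbove (fun b a => (b + a).Coprime (Wm X)) b).card := by
        apply sum_congr rfl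
        intro b _
        rfl
    _ = ∑ a ∈ A, ((range (Wm X)).bipartiteBelow (fun b a => (b + a).Coprime (Wm X)) a).card := this
    _ = ∑ a ∈ A, Nat.totient (Wm X) := by
        apply sum_congr rfl
        intro a _
        exact count_cop (Wm X) a
    _ = _ := by rw [sum_const, smul_eq_mul]

lemma sub_Vb (X : ℕ) (A T : Finset ℕ) (hT : T ⊆ A) (b : ℕ) :
    T ⊆ Vb X A b ↔ ∀ t ∈ T, (b + t).Coprime (Wm X) := by
  classical
  unfold Vb
  constructor
  · intro h t ht
    exact (mem_filter.mp (h ht)).2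
  · intro h t ht
    exact mem_filter.mpr ⟨hT ht, h t ht⟩

lemma choose_sum (k X : ℕ) (A : Finset ℕ) :
    ∑ T ∈ A.powersetCard (k + 1), gW X T =
      ∑ b ∈ range (Wm X), ((Vb X A b).card).choose (k + 1) := by
  classical
  have := sum_card_bipartiteAbove_eq_sum_card_bipartiteBelow
    (s := range (Wm X)) (t := A.powersetCard (k + 1)) (fun b T => T ⊆ Vb X A b)
  calc ∑ T ∈ A.powersetCard (k + 1), gW X T
      = ∑ T ∈ A.powersetCard (k + 1),
          ((range (Wm X)).bipartiteBelow (fun b T => T ⊆ Vb X A b) T).card := by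
        apply sum_congr rfl
        intro T hT
        unfold gW bipartiteBelow
        congr 1
        apply filter_congr
        intro b _
        exact (sub_Vb X A T (mem_powersetCard.mp hT).1 b).symm
    _ = ∑ b ∈ range (Wm X),
          ((A.powersetCard (k + 1)).bipartiteAbove (fun b T => T ⊆ Vb X A b) b).card := this.symm
    _ = _ := by
        apply sum_congr rfl
        intro b _
        rw [← card_powersetCard]
        congr 1
        ext T
        unfold bipartiteAbove
        rw [mem_filter, mem_powersetCard, mem_powersetCard]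
        constructor
        · rintro ⟨⟨_, h2⟩, h3⟩
          exact ⟨h3, h2⟩
        · rintro ⟨h1, h2⟩
          exact ⟨⟨h1.trans (filter_subset _ _), h2⟩, h1⟩

/-- the number of injective tuples with a given image -/
lemma fibre (k : ℕ) (T : Finset ℕ) (hT : T.card = k + 1) (Y : Finset (Fin (k + 1) → ℕ))
    (hY : ∀ y ∈ Y, Function.Injective y ∧ univ.image y = T) : Y.card ≤ (k + 1).factorial := by
  classical
  have h1 : Fintype.card (Fin (k + 1) ↪ {x // x ∈ T}) = (k + 1).factorial := by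
    rw [Fintype.card_embedding_eq, Fintype.card_fin, Fintype.card_coe, hT, Nat.descFactorial_self]
  rw [← h1, ← Fintype.card_coe Y]
  apply Fintype.card_le_of_injective (fun y : {y // y ∈ Y} =>
    (⟨fun i => ⟨y.1 i, by rw [← (hY y.1 y.2).2]; exact mem_image_of_mem _ (mem_univ _)⟩,
      fun i j hij => (hY y.1 y.2).1 (by simpa using hij)⟩ : Fin (k + 1) ↪ {x // x ∈ T}))
  intro y y' h
  apply Subtype.ext
  funext i
  have := congrArg (fun e : Fin (k + 1) ↪ {x // x ∈ T} => (e i).1) h
  exact this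

open Classical in
/-- the good sets in the class `b` -/
noncomputable def QT (k : ℕ) (δ : ℝ) (X : ℕ) (A : Finset ℕ) (b : ℕ) : Finset (Finset ℕ) :=
  (A.powersetCard (k + 1)).filter (fun T => T ⊆ Vb X A b ∧ δ * ex X (k + 1) ≤ (cbT X b T : ℝ))

open Classical in
/-- the number of classes in which `T` is good -/
noncomputable def gp (k : ℕ) (δ : ℝ) (X : ℕ) (A T : Finset ℕ) : ℕ :=
  ((range (Wm X)).filter (fun b => T ⊆ Vb X A b ∧ δ * ex X (k + 1) ≤ (cbT X b T : ℝ))).card

lemma good_le (k : ℕ) (δ : ℝ) (X b : ℕ) (A : Finset ℕ) :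
    (goodY k δ X b (Vb X A b)).card ≤ (k + 1).factorial * (QT k δ X A b).card := by
  classical
  apply card_le_mul_card_image_of_maps_to (f := fun y : Fin (k + 1) → ℕ => univ.image y)
  · intro y hy
    unfold goodY at hy
    rw [mem_filter, Fintype.mem_piFinset] at hy
    obtain ⟨h1, h2, h3⟩ := hy
    unfold QT
    have h4 : (univ.image y) ⊆ Vb X A b := by
      intro x hx
      obtain ⟨i, -, rfl⟩ := mem_image.mp hx
      exact h1 i
    rw [mem_filter, mem_powersetCard]
    refine ⟨⟨h4.trans (filter_subset _ _), ?_⟩, h4, ?_⟩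
    · rw [card_image_of_injective _ h2, card_univ, Fintype.card_fin]
    · rw [← cb_eq]; exact h3
  · intro T hT
    unfold QT at hT
    rw [mem_filter, mem_powersetCard] at hT
    apply fibre k T hT.1.2
    intro y hy
    rw [mem_filter] at hy
    obtain ⟨hy1, hy2⟩ := hy
    unfold goodY at hy1
    rw [mem_filter] at hy1
    exact ⟨hy1.2.1, hy2⟩

lemma sum_QT (k : ℕ) (δ : ℝ) (X : ℕ) (A : Finset ℕ) :
    ∑ b ∈ range (Wm X), (QT k δ X A b).card = ∑ T ∈ A.powersetCard (k + 1), gp k δ X A T := by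
  classical
  exact sum_card_bipartiteAbove_eq_sum_card_bipartiteBelow
    (s := range (Wm X)) (t := A.powersetCard (k + 1))
    (fun b T => T ⊆ Vb X A b ∧ δ * ex X (k + 1) ≤ (cbT X b T : ℝ))

lemma gp_le (k : ℕ) (δ : ℝ) (X : ℕ) (A T : Finset ℕ) (hT : T ⊆ A) : gp k δ X A T ≤ gW X T := by
  classical
  unfold gp gW
  apply card_le_card
  intro b hb
  rw [mem_filter] at hb ⊢
  exact ⟨hb.1, (sub_Vb X A T hT b).mp hb.2.1⟩

lemma cT_ge (k : ℕ) (δ : ℝ) (X : ℕ) (A T : Finset ℕ) :
    (gp k δ X A T : ℝ) * (δ * ex X (k + 1)) ≤ (cT X T : ℝ) := by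
  classical
  have h1 : cT X T = ∑ b ∈ range (Wm X), cbT X b T := by
    unfold cT
    rw [card_eq_sum_card_fiberwise (f := fun n => n % Wm X) (t := range (Wm X))]
    · apply sum_congr rfl
      intro b _
      unfold cbT SI
      congr 1
      ext n
      simp only [mem_filter]
      tauto
    · intro n _
      exact mem_coe.mpr (mem_range.mpr (Nat.mod_lt _ (Wpos X)))
  rw [h1]
  push_cast
  calc (gp k δ X A T : ℝ) * (δ * ex X (k + 1))
      = ∑ b ∈ (range (Wm X)).filter
          (fun b => T ⊆ Vb X A b ∧ δ * ex X (k + 1) ≤ (cbT X b T : ℝ)), (δ * ex X (k + 1)) := by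
        rw [sum_const, nsmul_eq_mul]; rfl
    _ ≤ ∑ b ∈ (range (Wm X)).filter
          (fun b => T ⊆ Vb X A b ∧ δ * ex X (k + 1) ≤ (cbT X b T : ℝ)), (cbT X b T : ℝ) := by
        apply sum_le_sum
        intro b hb
        exact (mem_filter.mp hb).2.2
    _ ≤ ∑ b ∈ range (Wm X), (cbT X b T : ℝ) := by
        apply sum_le_sum_of_subset_of_nonneg (filter_subset _ _)
        intro _ _ _
        positivity

lemma ex_nonneg (X l : ℕ) : 0 ≤ ex X l := by
  unfold ex
  have : 0 ≤ Real.log X := Real.log_natCast_nonneg X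
  positivity

theorem avg (hD : S_DEN) (_ : Wtx) : S_AVG := by
  classical
  intro k Λ η ε hΛ hη hε
  set κ : ℝ := (1 / 4 : ℝ) ^ k with hκ
  have hκ1 : κ ≤ 1 := pow_le_one₀ (by norm_num) (by norm_num)
  rcases le_or_gt κ ε with hκε | hκε
  · -- trivial case
    refine ⟨1, one_pos, 0, ?_⟩
    intro X _ A _ _
    calc (κ - ε) * ∑ T ∈ A.powersetCard (k + 1), (gW X T : ℝ) ≤ 0 := by
          apply mul_nonpos_of_nonpos_of_nonneg (by linarith)
          apply sum_nonneg
          intro _ _; positivity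
      _ ≤ _ := by
          apply sum_nonneg
          intro _ _; positivity
  set e2 : ℝ := ε / 3 with he2
  have he2pos : 0 < e2 := by rw [he2]; positivity
  have he2le : e2 ≤ 1 := by rw [he2]; linarith
  set η1 : ℝ := η * e2 with hη1
  have hη1pos : 0 < η1 := by rw [hη1]; positivity
  obtain ⟨δ, hδ, X₀, hX₀⟩ := hD k Λ η1 e2 hΛ hη1pos he2pos
  refine ⟨e2 * δ, by positivity, X₀, ?_⟩
  intro X hX A hA hAcard
  have hW0 : 0 < Wm X := Wpos X
  have hWr : (0 : ℝ) < Wm X := by exact_mod_cast hW0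
  have hL : 0 ≤ Real.log X := Real.log_natCast_nonneg X
  set ρ : ℝ := (Nat.totient (Wm X) : ℝ) / Wm X with hρ
  have hρ0 : 0 ≤ ρ := by rw [hρ]; positivity
  set N : ℕ → ℝ := fun b => ((Vb X A b).card : ℝ) with hN
  have hN0 : ∀ b, 0 ≤ N b := fun b => by simp only [hN]; positivity
  set S : ℝ := ∑ b ∈ range (Wm X), N b ^ (k + 1) with hS
  set P : ℝ := ∑ T ∈ A.powersetCard (k + 1), (gW X T : ℝ) with hP
  have hP0 : 0 ≤ P := by
    rw [hP]; apply sum_nonneg; intro _ _; positivity
  -- F1
  have hF1 : ((k + 1).factorial : ℝ) * P ≤ S := by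
    have h1 : P = ∑ b ∈ range (Wm X), (((Vb X A b).card.choose (k + 1) : ℕ) : ℝ) := by
      rw [hP]
      exact_mod_cast choose_sum k X A
    rw [h1, mul_sum, hS]
    apply sum_le_sum
    intro b _
    have h2 : (k + 1).factorial * (Vb X A b).card.choose (k + 1) ≤ (Vb X A b).card ^ (k + 1) := by
      rw [← Nat.descFactorial_eq_factorial_mul_choose]
      exact Nat.descFactorial_le_pow _ _
    simp only [hN]
    exact_mod_cast h2
  -- power mean
  have hPM : (Wm X : ℝ) * (η * Real.log X * ρ) ^ (k + 1) ≤ S := by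
    have h1 := pow_sum_div_card_le_sum_pow (s := range (Wm X)) (f := N) (fun b _ => hN0 b) k
    rw [card_range] at h1
    refine le_trans ?_ h1
    have h2 : ∑ b ∈ range (Wm X), N b = (A.card : ℝ) * Nat.totient (Wm X) := by
      simp only [hN]
      exact_mod_cast sum_Vb X A
    rw [h2, le_div_iff₀ (by positivity)]
    have h3 : (Wm X : ℝ) * (η * Real.log X * ρ) ^ (k + 1) * (Wm X : ℝ) ^ k =
        (η * Real.log X * Nat.totient (Wm X)) ^ (k + 1) := by
      rw [hρ]
      rw [mul_pow, div_pow, mul_pow]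
      field_simp
      ring
    rw [h3]
    apply pow_le_pow_left₀ (by positivity)
    apply mul_le_mul_of_nonneg_right hAcard (by positivity)
  -- classes
  set big : Finset ℕ := (range (Wm X)).filter (fun b => η1 * (Real.log X * ρ) ≤ N b) with hbig
  set small : Finset ℕ := (range (Wm X)).filter (fun b => ¬ η1 * (Real.log X * ρ) ≤ N b) with hsmall
  have hsplit : ∑ b ∈ big, N b ^ (k + 1) + ∑ b ∈ small, N b ^ (k + 1) = S := by
    rw [hbig, hsmall, hS]
    exact sum_filter_add_sum_filter_not _ _ _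
  have hsm : ∑ b ∈ small, N b ^ (k + 1) ≤ e2 * S := by
    calc ∑ b ∈ small, N b ^ (k + 1) ≤ ∑ b ∈ small, (η1 * (Real.log X * ρ)) ^ (k + 1) := by
          apply sum_le_sum
          intro b hb
          rw [hsmall, mem_filter, not_le] at hb
          exact pow_le_pow_left₀ (hN0 b) hb.2.le _
      _ ≤ ∑ b ∈ range (Wm X), (η1 * (Real.log X * ρ)) ^ (k + 1) := by
          apply sum_le_sum_of_subset_of_nonneg (filter_subset _ _)
          intro _ _ _
          positivity
      _ = (Wm X : ℝ) * (e2 * (η * Real.log X * ρ)) ^ (k + 1) := by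
          rw [sum_const, card_range, nsmul_eq_mul, hη1]
          congr 2
          ring
      _ = e2 ^ (k + 1) * ((Wm X : ℝ) * (η * Real.log X * ρ) ^ (k + 1)) := by
          rw [mul_pow]; ring
      _ ≤ e2 * ((Wm X : ℝ) * (η * Real.log X * ρ) ^ (k + 1)) := by
          apply mul_le_mul_of_nonneg_right _ (by positivity)
          calc e2 ^ (k + 1) ≤ e2 ^ 1 := pow_le_pow_of_le_one he2pos.le he2le (by omega)
            _ = e2 := pow_one _
      _ ≤ e2 * S := mul_le_mul_of_nonneg_left hPM he2pos.le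
  have hS0 : 0 ≤ S := by
    rw [hS]; apply sum_nonneg; intro b _; exact pow_nonneg (hN0 b) _
  have hκe : 0 ≤ κ - e2 := by rw [he2]; linarith
  have hbigsum : (κ - e2) * ((1 - e2) * S) ≤
      ∑ b ∈ range (Wm X), ((goodY k δ X b (Vb X A b)).card : ℝ) := by
    calc (κ - e2) * ((1 - e2) * S) ≤ (κ - e2) * ∑ b ∈ big, N b ^ (k + 1) := by
          apply mul_le_mul_of_nonneg_left _ hκe
          linarith
      _ = ∑ b ∈ big, (κ - e2) * N b ^ (k + 1) := by rw [mul_sum]
      _ ≤ ∑ b ∈ big, ((goodY k δ X b (Vb X A b)).card : ℝ) := by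
          apply sum_le_sum
          intro b hb
          rw [hbig, mem_filter, mem_range] at hb
          exact hX₀ X hX b hb.1 (Vb X A b) (Vb_sub Λ X A hA b) hb.2
      _ ≤ _ := by
          apply sum_le_sum_of_subset_of_nonneg (filter_subset _ _)
          intro _ _ _
          positivity
  have hgood : ∑ b ∈ range (Wm X), ((goodY k δ X b (Vb X A b)).card : ℝ) ≤
      ((k + 1).factorial : ℝ) * ∑ T ∈ A.powersetCard (k + 1), (gp k δ X A T : ℝ) := by
    have h1 : ∑ b ∈ range (Wm X), (goodY k δ X b (Vb X A b)).card ≤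
        (k + 1).factorial * ∑ T ∈ A.powersetCard (k + 1), gp k δ X A T := by
      rw [← sum_QT, mul_sum]
      apply sum_le_sum
      intro b _
      exact good_le k δ X b A
    exact_mod_cast h1
  have hfac : (0 : ℝ) < ((k + 1).factorial : ℝ) := by positivity
  have hgp : (κ - 2 * e2) * P ≤ ∑ T ∈ A.powersetCard (k + 1), (gp k δ X A T : ℝ) := by
    have h1 : (κ - 2 * e2) * S ≤ (κ - e2) * ((1 - e2) * S) := by
      have h2 : (κ - e2) * (1 - e2) - (κ - 2 * e2) = e2 * (1 - κ) + e2 ^ 2 := by ring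
      have h3 : 0 ≤ e2 * (1 - κ) + e2 ^ 2 := by
        have : 0 ≤ 1 - κ := by linarith
        positivity
      nlinarith
    have hκ2 : 0 ≤ κ - 2 * e2 := by rw [he2]; linarith
    have h4 : ((k + 1).factorial : ℝ) * ((κ - 2 * e2) * P) ≤
        ((k + 1).factorial : ℝ) * ∑ T ∈ A.powersetCard (k + 1), (gp k δ X A T : ℝ) := by
      calc ((k + 1).factorial : ℝ) * ((κ - 2 * e2) * P)
          = (κ - 2 * e2) * (((k + 1).factorial : ℝ) * P) := by ring
        _ ≤ (κ - 2 * e2) * S := mul_le_mul_of_nonneg_left hF1 hκ2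
        _ ≤ _ := h1
        _ ≤ _ := hbigsum
        _ ≤ _ := hgood
    exact le_of_mul_le_mul_left h4 hfac
  -- good sets
  set Gs : Finset (Finset ℕ) :=
    (A.powersetCard (k + 1)).filter (fun T => e2 * (gW X T : ℝ) ≤ gp k δ X A T) with hGs
  set Bs : Finset (Finset ℕ) :=
    (A.powersetCard (k + 1)).filter (fun T => ¬ e2 * (gW X T : ℝ) ≤ gp k δ X A T) with hBs
  have hsp2 : ∑ T ∈ Gs, (gp k δ X A T : ℝ) + ∑ T ∈ Bs, (gp k δ X A T : ℝ) =
      ∑ T ∈ A.powersetCard (k + 1), (gp k δ X A T : ℝ) := by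
    rw [hGs, hBs]
    exact sum_filter_add_sum_filter_not _ _ _
  have hBsum : ∑ T ∈ Bs, (gp k δ X A T : ℝ) ≤ e2 * P := by
    calc ∑ T ∈ Bs, (gp k δ X A T : ℝ) ≤ ∑ T ∈ Bs, e2 * (gW X T : ℝ) := by
          apply sum_le_sum
          intro T hT
          rw [hBs, mem_filter, not_le] at hT
          exact hT.2.le
      _ ≤ ∑ T ∈ A.powersetCard (k + 1), e2 * (gW X T : ℝ) := by
          apply sum_le_sum_of_subset_of_nonneg (filter_subset _ _)
          intro _ _ _
          positivity
      _ = e2 * P := by rw [hP, mul_sum]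
  have hGsum : ∑ T ∈ Gs, (gp k δ X A T : ℝ) ≤ ∑ T ∈ Gs, (gW X T : ℝ) := by
    apply sum_le_sum
    intro T hT
    rw [hGs, mem_filter, mem_powersetCard] at hT
    exact_mod_cast gp_le k δ X A T hT.1.1
  have hfinal : (κ - ε) * P ≤ ∑ T ∈ Gs, (gW X T : ℝ) := by
    have : (κ - ε) * P = (κ - 2 * e2) * P - e2 * P := by rw [he2]; ring
    linarith
  refine hfinal.trans ?_
  apply sum_le_sum_of_subset_of_nonneg
  · intro T hT
    rw [hGs, mem_filter] at hT
    rw [mem_filter]
    refine ⟨hT.1, ?_⟩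
    have h1 := cT_ge k δ X A T
    have h2 : e2 * δ * ((gW X T : ℝ) * ex X (k + 1)) ≤ (gp k δ X A T : ℝ) * (δ * ex X (k + 1)) := by
      calc e2 * δ * ((gW X T : ℝ) * ex X (k + 1)) = (e2 * (gW X T : ℝ)) * (δ * ex X (k + 1)) := by ring
        _ ≤ _ := by
          apply mul_le_mul_of_nonneg_right hT.2
          have := ex_nonneg X (k + 1)
          positivity
    exact h2.trans h1
  · intro _ _ _
    positivity

end Pool.Agent.W131.HR
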